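import Mathlib
import Pool.Agent.Lib.MP_cb8a44_nt.RM.Defs

section
/-! Prekopa-Leindler inequality on the real line (midpoint form, written with squares). -/
namespace Pool.Agent.Lib.MP_cb8a44_nt.PL

open MeasureTheory Set Filter Topology
open scoped ENNReal Pointwise

/-- Brunn-Minkowski on the line, compact sets. -/
theorem bm1_compact {A B : Set ℝ} (hA : IsCompact A) (hB : IsCompact B)
    (hA0 : A.Nonempty) (hB0 : B.Nonempty) :
    volume A + volume B ≤ volume (A + B) := by
  obtain ⟨a, haA, ha⟩ := hA.exists_isGreatest hA0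
  obtain ⟨b, hbB, hb⟩ := hB.exists_isLeast hB0
  have h1 : (fun x => x + b) '' A ∪ (fun x => a + x) '' B ⊆ A + B := by
    rintro z (⟨x, hx, rfl⟩ | ⟨x, hx, rfl⟩)
    · exact Set.add_mem_add hx hbB
    · exact Set.add_mem_add haA hx
  have h2 : volume ((fun x => x + b) '' A) = volume A := by
    rw [Set.image_add_right]
    exact measure_preimage_add_right _ _ _
  have h3 : volume ((fun x => a + x) '' B) = volume B := by
    rw [Set.image_add_left]
    exact measure_preimage_add _ _ _
  have h4 : AEDisjoint volume ((fun x => x + b) '' A) ((fun x => a + x) '' B) := by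
    refine measure_mono_null (t := {a + b}) ?_ (by simp)
    rintro z ⟨⟨x, hx, rfl⟩, ⟨y, hy, hxy⟩⟩
    have h5 : x ≤ a := ha hx
    have h6 : b ≤ y := hb hy
    simp only at hxy
    simp only [Set.mem_singleton_iff]
    linarith
  have h7 : MeasurableSet ((fun x => a + x) '' B) :=
    (hB.image (by fun_prop)).measurableSet
  calc volume A + volume B = volume ((fun x => x + b) '' A ∪ (fun x => a + x) '' B) := by
        rw [measure_union₀ h7.nullMeasurableSet h4, h2, h3]
    _ ≤ volume (A + B) := measure_mono h1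

/-- Brunn-Minkowski on the line, measurable sets. -/
theorem bm1 {A B : Set ℝ} (hA : MeasurableSet A) (hB : MeasurableSet B)
    (hA0 : A.Nonempty) (hB0 : B.Nonempty) :
    volume A + volume B ≤ volume (A + B) := by
  by_contra hcon
  push Not at hcon
  obtain ⟨a, haA⟩ := hA0
  obtain ⟨b, hbB⟩ := hB0
  have h2 : volume ((fun x => x + b) '' A) = volume A := by
    rw [Set.image_add_right]
    exact measure_preimage_add_right _ _ _
  have h3 : volume ((fun x => a + x) '' B) = volume B := by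
    rw [Set.image_add_left]
    exact measure_preimage_add _ _ _
  by_cases hA1 : volume A = 0
  · have : volume B ≤ volume (A + B) := by
      rw [← h3]
      apply measure_mono
      rintro z ⟨x, hx, rfl⟩
      exact Set.add_mem_add haA hx
    rw [hA1, zero_add] at hcon
    exact absurd this (not_le.2 hcon)
  by_cases hB1 : volume B = 0
  · have : volume A ≤ volume (A + B) := by
      rw [← h2]
      apply measure_mono
      rintro z ⟨x, hx, rfl⟩
      exact Set.add_mem_add hx hbB
    rw [hB1, add_zero] at hcon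
    exact absurd this (not_le.2 hcon)
  obtain ⟨r, hr, s, hs, hrs⟩ := ENNReal.exists_lt_add_of_lt_add hcon hA1 hB1
  obtain ⟨K, hKA, hK, hrK⟩ := hA.exists_lt_isCompact hr
  obtain ⟨L, hLB, hL, hsL⟩ := hB.exists_lt_isCompact hs
  have hK0 : K.Nonempty := by
    rcases K.eq_empty_or_nonempty with h | h
    · rw [h] at hrK; simp at hrK
    · exact h
  have hL0 : L.Nonempty := by
    rcases L.eq_empty_or_nonempty with h | h
    · rw [h] at hsL; simp at hsL
    · exact h
  have := bm1_compact hK hL hK0 hL0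
  have h8 : volume (K + L) ≤ volume (A + B) := measure_mono (Set.add_subset_add hKA hLB)
  exact absurd (lt_of_lt_of_le (lt_of_lt_of_le (lt_of_lt_of_le hrs (add_le_add hrK.le hsL.le)) this) h8)
    (lt_irrefl _)

/-- The normalised real case. -/
theorem pl1_real {f g h : ℝ → ℝ} (hf : Measurable f) (hg : Measurable g) (hh : Measurable h)
    (f0 : ∀ x, 0 ≤ f x) (g0 : ∀ x, 0 ≤ g x) (h0 : ∀ x, 0 ≤ h x)
    (f1 : ∀ x, f x ≤ 1) (g1 : ∀ x, g x ≤ 1)
    (fs : ∀ t < 1, ∃ x, t < f x) (gs : ∀ t < 1, ∃ x, t < g x)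
    (H : ∀ x y, f x * g y ≤ h ((x + y) / 2) ^ 2) :
    (∫⁻ x, ENNReal.ofReal (f x)) + ∫⁻ x, ENNReal.ofReal (g x) ≤
      2 * ∫⁻ x, ENNReal.ofReal (h x) := by
  have key : ∀ k : ℝ → ℝ, Measurable k → (∀ x, 0 ≤ k x) → (∀ x, k x ≤ 1) →
      ∫⁻ x, ENNReal.ofReal (k x) = ∫⁻ t in Ioo (0:ℝ) 1, volume {x | t < k x} := by
    intro k hk k0 k1
    rw [lintegral_eq_lintegral_meas_lt volume (Filter.Eventually.of_forall k0) hk.aemeasurable]
    rw [← lintegral_indicator measurableSet_Ioi, ← lintegral_indicator measurableSet_Ioo]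
    apply lintegral_congr_ae
    have : ∀ᵐ t : ℝ, t ≠ 1 := by
      simp [ae_iff]
    filter_upwards [this] with t ht
    by_cases h1 : t ∈ Ioo (0:ℝ) 1
    · rw [indicator_of_mem h1, indicator_of_mem (show t ∈ Ioi (0:ℝ) from h1.1)]
    · rw [indicator_of_notMem h1]
      by_cases h2 : t ∈ Ioi (0:ℝ)
      · rw [indicator_of_mem h2]
        have h3 : 1 < t := by
          rcases lt_trichotomy t 1 with h | h | h
          · exact absurd ⟨h2, h⟩ h1
          · exact absurd h ht
          · exact h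
        have : {x | t < k x} = ∅ := by
          ext x
          simp only [mem_setOf_eq, mem_empty_iff_false, iff_false, not_lt]
          exact (k1 x).trans h3.le
        rw [this, measure_empty]
      · rw [indicator_of_notMem h2]
  have hm : ∀ k : ℝ → ℝ, Measurable fun t : ℝ => volume {x | t < k x} := by
    intro k
    have : Antitone fun t : ℝ => volume {x | t < k x} := by
      intro s t hst
      apply measure_mono
      intro x hx
      exact lt_of_le_of_lt hst hx
    exact this.measurable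
  rw [key f hf f0 f1, key g hg g0 g1, ← lintegral_add_left (hm f),
    lintegral_eq_lintegral_meas_lt volume (Filter.Eventually.of_forall h0) hh.aemeasurable,
    ← lintegral_const_mul _ (hm h)]
  refine le_trans (setLIntegral_mono ((hm h).const_mul 2) (g := fun t => 2 * volume {x | t < h x}) ?_)
    (lintegral_mono_set (Ioo_subset_Ioi_self))
  intro t ht
  obtain ⟨x0, hx0⟩ := fs t ht.2
  obtain ⟨y0, hy0⟩ := gs t ht.2
  have h1 := bm1 (A := {x | t < f x}) (B := {x | t < g x}) (measurableSet_lt measurable_const hf)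
    (measurableSet_lt measurable_const hg) ⟨x0, hx0⟩ ⟨y0, hy0⟩
  refine h1.trans ?_
  have h2 : {x | t < f x} + {x | t < g x} ⊆ (fun x : ℝ => (2:ℝ)⁻¹ * x) ⁻¹' {x | t < h x} := by
    rintro z ⟨x, hx, y, hy, rfl⟩
    simp only [mem_setOf_eq, mem_preimage] at *
    have h3 := H x y
    have h4 : t * t < f x * g y := by
      have := ht.1
      nlinarith [mul_pos (sub_pos.2 hx) (sub_pos.2 hy)]
    have h5 : (2:ℝ)⁻¹ * (x + y) = (x + y) / 2 := by ring
    rw [h5]
    by_contra hcon
    push Not at hcon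
    have h6 := h0 ((x + y) / 2)
    nlinarith [ht.1]
  calc volume ({x | t < f x} + {x | t < g x}) ≤ volume ((fun x : ℝ => (2:ℝ)⁻¹ * x) ⁻¹' {x | t < h x}) :=
        measure_mono h2
    _ = 2 * volume {x | t < h x} := by
        rw [Real.volume_preimage_mul_left (by norm_num)]
        norm_num

theorem four_mul_le (X Y : ℝ≥0∞) : 4 * (X * Y) ≤ (X + Y) ^ 2 := by
  by_cases hX : X = ∞
  · subst hX; simp
  by_cases hY : Y = ∞
  · subst hY; simp
  lift X to NNReal using hX
  lift Y to NNReal using hY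
  norm_cast
  have : (4:ℝ) * (X * Y) ≤ (X + Y) ^ 2 := by nlinarith [sq_nonneg ((X:ℝ) - Y)]
  exact_mod_cast this

/-- Bounded case. -/
theorem pl1_bdd {f g h : ℝ → ℝ≥0∞} (hf : Measurable f) (hg : Measurable g) (hh : Measurable h)
    (H : ∀ x y, f x * g y ≤ h ((x + y) / 2) ^ 2) (fb : (⨆ x, f x) ≠ ∞) (gb : (⨆ x, g x) ≠ ∞) :
    (∫⁻ x, f x) * (∫⁻ x, g x) ≤ (∫⁻ x, h x) ^ 2 := by
  set a := ⨆ x, f x with ha
  set b := ⨆ x, g x with hb
  by_cases a0 : a = 0
  · have : ∀ x, f x = 0 := fun x => le_antisymm (a0 ▸ le_iSup f x) bot_le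
    simp [this]
  by_cases b0 : b = 0
  · have : ∀ x, g x = 0 := fun x => le_antisymm (b0 ▸ le_iSup g x) bot_le
    simp [this]
  -- square root of a * b
  obtain ⟨c, hc⟩ : ∃ c : ℝ≥0∞, c ^ 2 = a * b := by
    refine ⟨(a * b) ^ (1 / 2 : ℝ), ?_⟩
    rw [← ENNReal.rpow_natCast, ← ENNReal.rpow_mul]
    norm_num
  have habt : a * b ≠ ∞ := ENNReal.mul_ne_top fb gb
  have hab0 : a * b ≠ 0 := mul_ne_zero a0 b0
  have c0 : c ≠ 0 := by
    rintro rfl
    rw [zero_pow two_ne_zero] at hc
    exact hab0 hc.symm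
  have ct : c ≠ ∞ := by
    rintro rfl
    rw [ENNReal.top_pow two_ne_zero] at hc
    exact habt hc.symm
  have fa1 : ∀ x, f x * a⁻¹ ≤ 1 := by
    intro x
    calc f x * a⁻¹ ≤ a * a⁻¹ := by gcongr; exact le_iSup f x
      _ = 1 := ENNReal.mul_inv_cancel a0 fb
  have gb1 : ∀ x, g x * b⁻¹ ≤ 1 := by
    intro x
    calc g x * b⁻¹ ≤ b * b⁻¹ := by gcongr; exact le_iSup g x
      _ = 1 := ENNReal.mul_inv_cancel b0 gb
  have hc1 : ∀ x, min (h x * c⁻¹) 1 ≤ 1 := fun x => min_le_right _ _
  have cc : c⁻¹ ^ 2 = a⁻¹ * b⁻¹ := by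
    rw [← ENNReal.inv_pow, hc, ENNReal.mul_inv (Or.inl a0) (Or.inl fb)]
  have toR : ∀ z : ℝ≥0∞, z ≤ 1 → ENNReal.ofReal z.toReal = z := fun z hz =>
    ENNReal.ofReal_toReal (ne_top_of_le_ne_top ENNReal.one_ne_top hz)
  have key := pl1_real (f := fun x => (f x * a⁻¹).toReal) (g := fun x => (g x * b⁻¹).toReal)
    (h := fun x => (min (h x * c⁻¹) 1).toReal)
    (hf.mul_const _).ennreal_toReal (hg.mul_const _).ennreal_toReal
    ((hh.mul_const _).min measurable_const).ennreal_toReal
    (fun _ => ENNReal.toReal_nonneg) (fun _ => ENNReal.toReal_nonneg)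
    (fun _ => ENNReal.toReal_nonneg)
    (fun x => by
      have := ENNReal.toReal_mono ENNReal.one_ne_top (fa1 x); simpa using this)
    (fun x => by
      have := ENNReal.toReal_mono ENNReal.one_ne_top (gb1 x); simpa using this)
    (fun t ht => by
      by_contra hcon
      push Not at hcon
      by_cases t0 : t < 0
      · have := hcon 0
        have h2 := ENNReal.toReal_nonneg (a := f 0 * a⁻¹)
        linarith
      push Not at t0
      have h1 : ∀ x, f x ≤ ENNReal.ofReal t * a := by
        intro x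
        have h2 : f x * a⁻¹ ≤ ENNReal.ofReal t := by
          rw [← toR _ (fa1 x)]
          exact ENNReal.ofReal_le_ofReal (hcon x)
        calc f x = f x * a⁻¹ * a := by
              rw [mul_assoc, ENNReal.inv_mul_cancel a0 fb, mul_one]
          _ ≤ ENNReal.ofReal t * a := by gcongr
      have h3 : a ≤ ENNReal.ofReal t * a := iSup_le h1
      have h4 : ENNReal.ofReal t * a < 1 * a := by
        exact ENNReal.mul_lt_mul_left a0 fb ((ENNReal.ofReal_lt_one).2 ht)
      rw [one_mul] at h4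
      exact absurd h3 (not_le.2 h4))
    (fun t ht => by
      by_contra hcon
      push Not at hcon
      by_cases t0 : t < 0
      · have := hcon 0
        have h2 := ENNReal.toReal_nonneg (a := g 0 * b⁻¹)
        linarith
      push Not at t0
      have h1 : ∀ x, g x ≤ ENNReal.ofReal t * b := by
        intro x
        have h2 : g x * b⁻¹ ≤ ENNReal.ofReal t := by
          rw [← toR _ (gb1 x)]
          exact ENNReal.ofReal_le_ofReal (hcon x)
        calc g x = g x * b⁻¹ * b := by
              rw [mul_assoc, ENNReal.inv_mul_cancel b0 gb, mul_one]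
          _ ≤ ENNReal.ofReal t * b := by gcongr
      have h3 : b ≤ ENNReal.ofReal t * b := iSup_le h1
      have h4 : ENNReal.ofReal t * b < 1 * b := by
        exact ENNReal.mul_lt_mul_left b0 gb ((ENNReal.ofReal_lt_one).2 ht)
      rw [one_mul] at h4
      exact absurd h3 (not_le.2 h4))
    (fun x y => by
      have h1 : f x * a⁻¹ * (g y * b⁻¹) ≤ (min (h ((x + y) / 2) * c⁻¹) 1) ^ 2 := by
        rcases le_total (h ((x + y) / 2) * c⁻¹) 1 with h2 | h2
        · rw [min_eq_left h2, mul_pow, cc]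
          calc f x * a⁻¹ * (g y * b⁻¹) = f x * g y * (a⁻¹ * b⁻¹) := by ring
            _ ≤ _ := by gcongr; exact H x y
        · rw [min_eq_right h2, one_pow]
          calc f x * a⁻¹ * (g y * b⁻¹) ≤ 1 * 1 := by gcongr; exacts [fa1 x, gb1 y]
            _ = 1 := one_mul _
      have h2 := ENNReal.toReal_mono
        (ENNReal.pow_ne_top (ne_top_of_le_ne_top ENNReal.one_ne_top (hc1 ((x + y) / 2)))) h1
      rwa [ENNReal.toReal_mul, ENNReal.toReal_pow] at h2)
  have e1 : (∫⁻ x, ENNReal.ofReal ((f x * a⁻¹).toReal)) = (∫⁻ x, f x) * a⁻¹ := by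
    rw [← lintegral_mul_const _ hf]
    exact lintegral_congr fun x => toR _ (fa1 x)
  have e2 : (∫⁻ x, ENNReal.ofReal ((g x * b⁻¹).toReal)) = (∫⁻ x, g x) * b⁻¹ := by
    rw [← lintegral_mul_const _ hg]
    exact lintegral_congr fun x => toR _ (gb1 x)
  have e3 : (∫⁻ x, ENNReal.ofReal ((min (h x * c⁻¹) 1).toReal)) ≤ (∫⁻ x, h x) * c⁻¹ := by
    rw [← lintegral_mul_const _ hh]
    exact lintegral_mono fun x => by
      rw [toR _ (hc1 x)]; exact min_le_left _ _
  simp only [e1, e2] at key
  have key2 : (∫⁻ x, f x) * a⁻¹ + (∫⁻ x, g x) * b⁻¹ ≤ 2 * ((∫⁻ x, h x) * c⁻¹) :=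
    key.trans (by gcongr)
  have h5 := four_mul_le ((∫⁻ x, f x) * a⁻¹) ((∫⁻ x, g x) * b⁻¹)
  have h6 : 4 * ((∫⁻ x, f x) * a⁻¹ * ((∫⁻ x, g x) * b⁻¹)) ≤ (2 * ((∫⁻ x, h x) * c⁻¹)) ^ 2 :=
    h5.trans (by gcongr)
  have h7 : (2 * ((∫⁻ x, h x) * c⁻¹)) ^ 2 = 4 * ((∫⁻ x, h x) ^ 2 * (a⁻¹ * b⁻¹)) := by
    rw [mul_pow, mul_pow, cc]; norm_num
  rw [h7] at h6
  have h8 : (∫⁻ x, f x) * a⁻¹ * ((∫⁻ x, g x) * b⁻¹) ≤ (∫⁻ x, h x) ^ 2 * (a⁻¹ * b⁻¹) :=
    (ENNReal.mul_le_mul_iff_right (by norm_num) (by norm_num)).1 h6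
  calc (∫⁻ x, f x) * (∫⁻ x, g x)
      = ((∫⁻ x, f x) * a⁻¹ * ((∫⁻ x, g x) * b⁻¹)) * (a * b) := by
        have : (∫⁻ x, f x) * a⁻¹ * ((∫⁻ x, g x) * b⁻¹) * (a * b)
            = (∫⁻ x, f x) * (∫⁻ x, g x) * (a⁻¹ * a) * (b⁻¹ * b) := by ring
        rw [this, ENNReal.inv_mul_cancel a0 fb, ENNReal.inv_mul_cancel b0 gb, mul_one, mul_one]
    _ ≤ ((∫⁻ x, h x) ^ 2 * (a⁻¹ * b⁻¹)) * (a * b) := by gcongr
    _ = (∫⁻ x, h x) ^ 2 := by
        have : (∫⁻ x, h x) ^ 2 * (a⁻¹ * b⁻¹) * (a * b)
            = (∫⁻ x, h x) ^ 2 * (a⁻¹ * a) * (b⁻¹ * b) := by ring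
        rw [this, ENNReal.inv_mul_cancel a0 fb, ENNReal.inv_mul_cancel b0 gb, mul_one, mul_one]

theorem lintegral_trunc {α : Type*} [MeasurableSpace α] (μ : Measure α) {f : α → ℝ≥0∞}
    (hf : Measurable f) : ∫⁻ x, f x ∂μ = ⨆ N : ℕ, ∫⁻ x, min (f x) N ∂μ := by
  rw [← lintegral_iSup (fun N => hf.min measurable_const)]
  · apply lintegral_congr
    intro x
    apply le_antisymm
    · by_cases h : f x = ∞
      · rw [h]
        simp only [le_top, inf_of_le_right]
        rw [ENNReal.iSup_natCast]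
      · obtain ⟨N, hN⟩ := ENNReal.exists_nat_gt h
        exact le_iSup_of_le N (by rw [min_eq_left hN.le])
    · exact iSup_le fun N => min_le_left _ _
  · intro M N hMN x
    exact min_le_min_left _ (by exact_mod_cast hMN)

/-- Prekopa-Leindler on the line. -/
theorem pl1 {f g h : ℝ → ℝ≥0∞} (hf : Measurable f) (hg : Measurable g) (hh : Measurable h)
    (H : ∀ x y, f x * g y ≤ h ((x + y) / 2) ^ 2) :
    (∫⁻ x, f x) * (∫⁻ x, g x) ≤ (∫⁻ x, h x) ^ 2 := by
  rw [lintegral_trunc volume hf, lintegral_trunc volume hg, ENNReal.iSup_mul]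
  refine iSup_le fun M => ?_
  rw [ENNReal.mul_iSup]
  refine iSup_le fun N => ?_
  refine pl1_bdd (hf.min measurable_const) (hg.min measurable_const) hh ?_ ?_ ?_
  · intro x y
    exact le_trans (mul_le_mul' (min_le_left _ _) (min_le_left _ _)) (H x y)
  · exact ne_top_of_le_ne_top (ENNReal.natCast_ne_top M) (iSup_le fun x => min_le_right _ _)
  · exact ne_top_of_le_ne_top (ENNReal.natCast_ne_top N) (iSup_le fun x => min_le_right _ _)

end Pool.Agent.Lib.MP_cb8a44_nt.PL
end

section
/-! Prekopa-Leindler inequality in every finite dimension (midpoint form, written with squares). -/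
namespace Pool.Agent.Lib.MP_cb8a44_nt.PL

open MeasureTheory Set Filter Topology
open scoped ENNReal Pointwise

/-- Midpoint Prekopa-Leindler property of a measure on a real vector space. -/
def PLProp (E : Type*) [MeasurableSpace E] [AddCommGroup E] [Module ℝ E] (μ : Measure E) : Prop :=
  ∀ f g h : E → ℝ≥0∞, Measurable f → Measurable g → Measurable h →
    (∀ x y, f x * g y ≤ h ((1 / 2 : ℝ) • (x + y)) ^ 2) →
    (∫⁻ x, f x ∂μ) * (∫⁻ x, g x ∂μ) ≤ (∫⁻ x, h x ∂μ) ^ 2

theorem plProp_real : PLProp ℝ volume := by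
  intro f g h hf hg hh H
  refine pl1 hf hg hh fun x y => ?_
  have := H x y
  rwa [smul_eq_mul, one_div, ← div_eq_inv_mul] at this

theorem plProp_prod {E F : Type*} [MeasurableSpace E] [AddCommGroup E] [Module ℝ E]
    [MeasurableSpace F] [AddCommGroup F] [Module ℝ F] {μ : Measure E} {ν : Measure F}
    [SFinite μ] [SFinite ν] (hμ : PLProp E μ) (hν : PLProp F ν) : PLProp (E × F) (μ.prod ν) := by
  intro f g h hf hg hh H
  rw [lintegral_prod _ hf.aemeasurable, lintegral_prod _ hg.aemeasurable,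
    lintegral_prod _ hh.aemeasurable]
  refine hμ _ _ _ hf.lintegral_prod_right' hg.lintegral_prod_right' hh.lintegral_prod_right' ?_
  intro x y
  refine hν _ _ _ (hf.comp measurable_prodMk_left) (hg.comp measurable_prodMk_left)
    (hh.comp measurable_prodMk_left) ?_
  intro u v
  exact H (x, u) (y, v)

theorem plProp_map {E F : Type*} [MeasurableSpace E] [AddCommGroup E] [Module ℝ E]
    [MeasurableSpace F] [AddCommGroup F] [Module ℝ F] {μ : Measure E} {ν : Measure F}
    (e : E →ₗ[ℝ] F) (he : MeasurePreserving e μ ν) (hμ : PLProp E μ) : PLProp F ν := by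
  intro f g h hf hg hh H
  rw [← he.lintegral_comp hf, ← he.lintegral_comp hg, ← he.lintegral_comp hh]
  refine hμ _ _ _ (hf.comp he.measurable) (hg.comp he.measurable) (hh.comp he.measurable) ?_
  intro x y
  have := H (e x) (e y)
  rwa [← map_add, ← map_smul] at this

theorem plProp_smul {E : Type*} [MeasurableSpace E] [AddCommGroup E] [Module ℝ E] {μ : Measure E}
    (hμ : PLProp E μ) (c : ℝ≥0∞) : PLProp E (c • μ) := by
  intro f g h hf hg hh H
  rw [lintegral_smul_measure, lintegral_smul_measure, lintegral_smul_measure]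
  have := hμ f g h hf hg hh H
  simp only [smul_eq_mul]
  calc c * (∫⁻ x, f x ∂μ) * (c * ∫⁻ x, g x ∂μ) = c ^ 2 * ((∫⁻ x, f x ∂μ) * ∫⁻ x, g x ∂μ) := by ring
    _ ≤ c ^ 2 * (∫⁻ x, h x ∂μ) ^ 2 := by gcongr
    _ = _ := by ring

/-- Inverse of the splitting of the first coordinate, as a linear map. -/
def consL (n : ℕ) : ℝ × (Fin n → ℝ) →ₗ[ℝ] (Fin (n + 1) → ℝ) where
  toFun p := Fin.insertNth (α := fun _ => ℝ) 0 p.1 p.2
  map_add' p q := by
    ext i
    refine Fin.cases ?_ (fun j => ?_) i <;> simp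
  map_smul' c p := by
    ext i
    refine Fin.cases ?_ (fun j => ?_) i <;> simp

theorem plProp_fin (n : ℕ) : PLProp (Fin n → ℝ) volume := by
  induction n with
  | zero =>
    intro f g h hf hg hh H
    have h1 : ∀ k : (Fin 0 → ℝ) → ℝ≥0∞, ∫⁻ x, k x = k 0 := by
      intro k
      rw [lintegral_unique]
      simp only [volume_pi, Measure.pi_univ, Finset.univ_eq_empty, Finset.prod_empty, mul_one]
      congr 1
      exact Subsingleton.elim _ _
    rw [h1, h1, h1]
    have := H 0 0
    rwa [Subsingleton.elim ((1 / 2 : ℝ) • ((0 : Fin 0 → ℝ) + 0)) 0] at this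
  | succ n ih =>
    have h1 := (volume_preserving_piFinSuccAbove (fun _ : Fin (n + 1) => ℝ) 0).symm
    refine plProp_map (consL n) ?_ (plProp_prod plProp_real ih)
    exact h1

theorem plProp_pi (ι : Type*) [Fintype ι] : PLProp (ι → ℝ) volume := by
  classical
  let e := (Fintype.equivFin ι).symm
  have h1 := volume_measurePreserving_piCongrLeft (fun _ : ι => ℝ) e
  refine plProp_map (LinearEquiv.piCongrLeft ℝ (fun _ : ι => ℝ) e).toLinearMap ?_
    (plProp_fin (Fintype.card ι))
  exact h1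

/-- Prekopa-Leindler for every additive Haar measure on a finite dimensional space. -/
theorem plProp_haar {E : Type*} [NormedAddCommGroup E] [NormedSpace ℝ E] [FiniteDimensional ℝ E]
    [MeasurableSpace E] [BorelSpace E] (μ : Measure E) [μ.IsAddHaarMeasure] : PLProp E μ := by
  let b := Module.finBasis ℝ E
  let e : E ≃L[ℝ] (Fin (Module.finrank ℝ E) → ℝ) := b.equivFun.toContinuousLinearEquiv
  let ν : Measure E := volume.map e.symm
  have : ν.IsAddHaarMeasure := e.symm.isAddHaarMeasure_map volume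
  have hν : PLProp E ν := by
    refine plProp_map e.symm.toLinearEquiv.toLinearMap ?_ (plProp_fin _)
    exact ⟨e.symm.continuous.measurable, rfl⟩
  have h2 : μ = μ.addHaarScalarFactor ν • ν := Measure.isAddLeftInvariant_eq_smul μ ν
  rw [h2]
  exact plProp_smul hν _

end Pool.Agent.Lib.MP_cb8a44_nt.PL
end

section
/-! Anderson's inequality (even log-concave functions, symmetric convex sets). -/
namespace Pool.Agent.Lib.MP_cb8a44_nt.PL

open MeasureTheory Set Filter Topology
open scoped ENNReal Pointwise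

/-- Midpoint log-concave function. -/
def MLC {E : Type*} [AddCommGroup E] [Module ℝ E] (f : E → ℝ≥0∞) : Prop :=
  ∀ x y, f x * f y ≤ f ((1 / 2 : ℝ) • (x + y)) ^ 2

theorem MLC.mul {E : Type*} [AddCommGroup E] [Module ℝ E] {f g : E → ℝ≥0∞} (hf : MLC f)
    (hg : MLC g) : MLC fun x => f x * g x := by
  intro x y
  calc f x * g x * (f y * g y) = (f x * f y) * (g x * g y) := by ring
    _ ≤ _ := mul_le_mul' (hf x y) (hg x y)
    _ = _ := by ring

theorem mlc_indicator {E : Type*} [AddCommGroup E] [Module ℝ E] {V : Set E} (hV : Convex ℝ V) :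
    MLC (V.indicator 1 : E → ℝ≥0∞) := by
  intro x y
  by_cases hx : x ∈ V
  · by_cases hy : y ∈ V
    · have : (1 / 2 : ℝ) • (x + y) ∈ V := by
        rw [smul_add]
        exact hV hx hy (by norm_num) (by norm_num) (by norm_num)
      rw [indicator_of_mem hx, indicator_of_mem hy, indicator_of_mem this]
      simp
    · simp [hy]
  · simp [hx]

theorem mlc_gauss {ι : Type*} [Fintype ι] (a : ι → ℝ) (ha : ∀ i, 0 ≤ a i) :
    MLC (fun x : ι → ℝ => ENNReal.ofReal (Real.exp (-∑ i, a i * x i ^ 2))) := by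
  intro x y
  rw [← ENNReal.ofReal_mul (Real.exp_pos _).le, ← ENNReal.ofReal_pow (Real.exp_pos _).le,
    ← Real.exp_add, ← Real.exp_nat_mul]
  apply ENNReal.ofReal_le_ofReal
  apply Real.exp_le_exp.2
  have : ∀ i, 2 * (a i * (((1 / 2 : ℝ) • (x + y)) i) ^ 2) ≤ a i * x i ^ 2 + a i * y i ^ 2 := by
    intro i
    simp only [Pi.smul_apply, Pi.add_apply, smul_eq_mul]
    nlinarith [mul_nonneg (ha i) (sq_nonneg (x i - y i))]
  have h2 := Finset.sum_le_sum fun i (_ : i ∈ Finset.univ) => this i
  rw [← Finset.mul_sum, Finset.sum_add_distrib] at h2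
  push_cast
  linarith

/-- Anderson's inequality for even log-concave functions. -/
theorem anderson {E : Type*} [MeasurableSpace E] [AddCommGroup E] [Module ℝ E]
    [MeasurableAdd E] [MeasurableNeg E] {μ : Measure E} [μ.IsNegInvariant] (hμ : PLProp E μ)
    {K g : E → ℝ≥0∞} (hK : Measurable K) (hg : Measurable g) (lK : MLC K) (lg : MLC g)
    (eK : ∀ x, K (-x) = K x) (eg : ∀ x, g (-x) = g x) (t : E) :
    ∫⁻ w, K (w + t) * g w ∂μ ≤ ∫⁻ w, K w * g w ∂μ := by
  have h1 : ∫⁻ w, K (w - t) * g w ∂μ = ∫⁻ w, K (w + t) * g w ∂μ := by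
    rw [← lintegral_neg_eq_self (μ := μ) (fun w => K (w + t) * g w)]
    refine lintegral_congr fun w => ?_
    rw [eg, ← eK (w - t)]
    congr 2
    abel
  have hK' : Measurable fun w => K (w - t) := by
    have := hK.comp (measurable_add_const (-t))
    simpa [Function.comp_def, sub_eq_add_neg] using this
  have h2 := hμ (fun w => K (w + t) * g w) (fun w => K (w - t) * g w) (fun w => K w * g w)
    ((hK.comp (measurable_add_const t)).mul hg)
    (hK'.mul hg) (hK.mul hg) (by
      intro x y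
      have h3 := lK (x + t) (y - t)
      have h4 := lg x y
      have h5 : x + t + (y - t) = x + y := by abel
      rw [h5] at h3
      calc K (x + t) * g x * (K (y - t) * g y) = (K (x + t) * K (y - t)) * (g x * g y) := by ring
        _ ≤ _ := mul_le_mul' h3 h4
        _ = _ := by ring)
  rw [h1, ← sq] at h2
  exact (ENNReal.pow_le_pow_left_iff two_ne_zero).1 h2

/-- Anderson's inequality for diagonal Gaussians and symmetric convex sets. -/
theorem anderson_gauss {ι : Type*} [Fintype ι] {W : Set (ι → ℝ)} (hc : Convex ℝ W)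
    (hs : ∀ x ∈ W, -x ∈ W) (hm : MeasurableSet W) (γ t : ι → ℝ) (hγ : ∀ i, 0 ≤ γ i) :
    ∫⁻ w in W, ENNReal.ofReal (Real.exp (-∑ i, γ i * (w i + t i) ^ 2)) ≤
      ∫⁻ w in W, ENNReal.ofReal (Real.exp (-∑ i, γ i * w i ^ 2)) := by
  have h := anderson (E := ι → ℝ) (μ := volume) (plProp_pi ι)
    (K := fun x : ι → ℝ => ENNReal.ofReal (Real.exp (-∑ i, γ i * x i ^ 2)))
    (g := W.indicator 1) (by fun_prop) (measurable_one.indicator hm) (mlc_gauss γ hγ)
    (mlc_indicator hc) (by intro x; simp) (by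
      intro x
      by_cases hx : x ∈ W
      · simp [hx, hs x hx]
      · have : -x ∉ W := fun h => hx (by simpa using hs _ h)
        simp [hx, this]) t
  rw [← lintegral_indicator hm, ← lintegral_indicator hm]
  refine le_of_eq_of_le (lintegral_congr fun w => ?_)
    (h.trans (le_of_eq (lintegral_congr fun w => ?_)))
  · by_cases hw : w ∈ W
    · simp [hw]
    · simp [hw]
  · by_cases hw : w ∈ W
    · simp [hw]
    · simp [hw]

end Pool.Agent.Lib.MP_cb8a44_nt.PL
end

section
/-! The B-theorem for diagonal Gaussians and symmetric convex sets, by doubling. -/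
namespace Pool.Agent.Lib.MP_cb8a44_nt.PL

open MeasureTheory Set Filter Topology
open scoped ENNReal Pointwise

/-- mass of `V` for the Gaussian weight `exp (- ∑ a_i x_i²)` -/
noncomputable def hv {ι : Type} [Fintype ι] (V : Set (ι → ℝ)) (a : ι → ℝ) : ℝ≥0∞ :=
  ∫⁻ x in V, ENNReal.ofReal (Real.exp (-∑ i, a i * x i ^ 2))

/-- symmetric convex measurable set -/
structure SC {ι : Type} [Fintype ι] (V : Set (ι → ℝ)) : Prop where
  conv : Convex ℝ V
  symm : ∀ x ∈ V, -x ∈ V
  meas : MeasurableSet V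

/-- the section of the doubled set -/
def sec {ι : Type} [Fintype ι] (V : Set (ι → ℝ)) (u : ι → ℝ) : Set (ι → ℝ) :=
  {w | u + w ∈ V ∧ u - w ∈ V}

/-- the doubled set -/
def dbl {ι : Type} [Fintype ι] (V : Set (ι → ℝ)) : Set (ι ⊕ ι → ℝ) :=
  {z | (fun i => z (Sum.inl i) + z (Sum.inr i)) ∈ V ∧
    (fun i => z (Sum.inl i) - z (Sum.inr i)) ∈ V}

section

variable {ι : Type} [Fintype ι] {V : Set (ι → ℝ)}

theorem SC.sec (h : SC V) (u : ι → ℝ) : SC (sec V u) := by
  refine ⟨?_, ?_, ?_⟩
  · intro x hx y hy a b ha hb hab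
    constructor
    · have := h.conv hx.1 hy.1 ha hb hab
      convert this using 1
      have : u = a • u + b • u := by rw [← add_smul, hab, one_smul]
      nth_rewrite 1 [this]
      simp only [smul_add]
      abel
    · have := h.conv hx.2 hy.2 ha hb hab
      convert this using 1
      have : u = a • u + b • u := by rw [← add_smul, hab, one_smul]
      nth_rewrite 1 [this]
      simp only [smul_sub]
      abel
  · intro x hx
    exact ⟨by simpa [sub_eq_add_neg] using hx.2, by simpa using hx.1⟩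
  · exact (h.meas.preimage (by fun_prop : Measurable fun w => u + w)).inter
      (h.meas.preimage (by fun_prop : Measurable fun w => u - w))

theorem SC.dbl (h : SC V) : SC (dbl V) := by
  refine ⟨?_, ?_, ?_⟩
  · intro x hx y hy a b ha hb hab
    constructor
    · have := h.conv hx.1 hy.1 ha hb hab
      convert this using 1
      ext i
      simp only [Pi.add_apply, Pi.smul_apply, smul_eq_mul]
      ring
    · have := h.conv hx.2 hy.2 ha hb hab
      convert this using 1
      ext i
      simp only [Pi.add_apply, Pi.smul_apply, smul_eq_mul]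
      ring
  · intro x hx
    constructor
    · have := h.symm _ hx.1
      convert this using 1
      ext i
      simp only [Pi.neg_apply]
      ring
    · have := h.symm _ hx.2
      convert this using 1
      ext i
      simp only [Pi.neg_apply]
      ring
  · exact (h.meas.preimage (by fun_prop :
        Measurable fun (z : ι ⊕ ι → ℝ) => (fun i => z (Sum.inl i) + z (Sum.inr i)))).inter
      (h.meas.preimage (by fun_prop :
        Measurable fun (z : ι ⊕ ι → ℝ) => (fun i => z (Sum.inl i) - z (Sum.inr i))))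

/-- mass of the doubled set as an iterated integral -/
theorem hv_dbl (h : SC V) (b c : ι → ℝ) : hv (dbl V) (Sum.elim b c) =
    ∫⁻ u : ι → ℝ, ∫⁻ w in sec V u,
      ENNReal.ofReal (Real.exp (-∑ i, (b i * u i ^ 2 + c i * w i ^ 2))) := by
  have hd := h.dbl
  unfold hv
  rw [← lintegral_indicator hd.meas]
  have h1 := volume_measurePreserving_sumPiEquivProdPi (fun _ : ι ⊕ ι => ℝ)
  have h2 := h1.symm
  rw [← h2.lintegral_comp ?_]
  swap
  · refine Measurable.indicator ?_ hd.meas
    fun_prop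
  rw [Measure.volume_eq_prod, lintegral_prod]
  swap
  · refine Measurable.aemeasurable ?_
    have h5 : Measurable ((dbl V).indicator fun x : ι ⊕ ι → ℝ =>
        ENNReal.ofReal (Real.exp (-∑ i, Sum.elim b c i * x i ^ 2))) :=
      Measurable.indicator (by fun_prop) hd.meas
    exact h5.comp (MeasurableEquiv.sumPiEquivProdPi fun _ : ι ⊕ ι => ℝ).symm.measurable
  refine lintegral_congr fun u => ?_
  rw [← lintegral_indicator (h.sec u).meas]
  refine lintegral_congr fun w => ?_
  have h3 : (MeasurableEquiv.sumPiEquivProdPi fun _ : ι ⊕ ι => ℝ).symm (u, w) = Sum.elim u w := by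
    ext i
    rcases i with i | i <;> rfl
  rw [h3]
  by_cases hw : w ∈ PL.sec V u
  · rw [indicator_of_mem hw, indicator_of_mem (show Sum.elim u w ∈ PL.dbl V from hw)]
    congr 2
    rw [Fintype.sum_sum_type, Finset.sum_add_distrib]
    simp
  · rw [indicator_of_notMem hw, indicator_of_notMem (show Sum.elim u w ∉ PL.dbl V from hw)]

/-- product of two masses -/
theorem hv_mul (h : SC V) (α β : ι → ℝ) : hv V α * hv V β =
    2 ^ Fintype.card ι * ∫⁻ u : ι → ℝ, ∫⁻ w in sec V u,
      ENNReal.ofReal (Real.exp (-∑ i, (α i * (u i + w i) ^ 2 + β i * (u i - w i) ^ 2))) := by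
  set F : (ι → ℝ) → (ι → ℝ) → ℝ≥0∞ := fun x y =>
    V.indicator (fun x => ENNReal.ofReal (Real.exp (-∑ i, α i * x i ^ 2))) x *
    V.indicator (fun x => ENNReal.ofReal (Real.exp (-∑ i, β i * x i ^ 2))) y with hF
  have mA : Measurable (V.indicator (fun x : ι → ℝ => ENNReal.ofReal (Real.exp (-∑ i, α i * x i ^ 2)))) :=
    Measurable.indicator (by fun_prop) h.meas
  have mB : Measurable (V.indicator (fun x : ι → ℝ => ENNReal.ofReal (Real.exp (-∑ i, β i * x i ^ 2)))) :=
    Measurable.indicator (by fun_prop) h.meas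
  have e1 : hv V α * hv V β = ∫⁻ x, ∫⁻ y, F x y := by
    unfold hv
    rw [← lintegral_indicator h.meas, ← lintegral_indicator h.meas, ← lintegral_mul_const _ mA]
    refine lintegral_congr fun x => ?_
    rw [← lintegral_const_mul _ mB]
  have e2 : ∀ x, ∫⁻ y, F x y = 2 ^ Fintype.card ι * ∫⁻ w, F x (x - (2:ℝ) • w) := by
    intro x
    have h3 : ∫⁻ y, F x y = ∫⁻ y, F x (x - y) := by
      rw [lintegral_sub_left_eq_self (fun y => F x y) x]
    rw [h3]
    have h4 : Measure.map (fun w : ι → ℝ => (2:ℝ) • w) volume =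
        ENNReal.ofReal |((2:ℝ) ^ Module.finrank ℝ (ι → ℝ))⁻¹| • (volume : Measure (ι → ℝ)) :=
      Measure.map_addHaar_smul volume (by norm_num)
    have h5 : ∫⁻ w, F x (x - (2:ℝ) • w) = ∫⁻ y, F x (x - y) ∂(Measure.map (fun w : ι → ℝ => (2:ℝ) • w) volume) := by
      rw [lintegral_map (f := fun y => F x (x - y))]
      · exact (mB.const_mul _).comp (by fun_prop)
      · fun_prop
    rw [h5, h4, lintegral_smul_measure, smul_eq_mul, ← mul_assoc]
    have h6 : (2:ℝ≥0∞) ^ Fintype.card ι * ENNReal.ofReal |((2:ℝ) ^ Module.finrank ℝ (ι → ℝ))⁻¹| = 1 := by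
      rw [Module.finrank_fintype_fun_eq_card, abs_of_pos (by positivity),
        ENNReal.ofReal_inv_of_pos (by positivity), ENNReal.ofReal_pow (by norm_num)]
      rw [show ENNReal.ofReal 2 = 2 by norm_num]
      exact ENNReal.mul_inv_cancel (by positivity) (ENNReal.pow_ne_top (by norm_num))
    rw [h6, one_mul]
  rw [e1]
  simp_rw [e2]
  have mF : Measurable (Function.uncurry fun x w : ι → ℝ => F x (x - (2:ℝ) • w)) := by
    refine (mA.comp measurable_fst).mul (mB.comp ?_)
    fun_prop
  rw [lintegral_const_mul _ (by exact mF.lintegral_prod_right')]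
  congr 1
  rw [lintegral_lintegral_swap mF.aemeasurable]
  have e3 : ∀ w : ι → ℝ, ∫⁻ x, F x (x - (2:ℝ) • w) = ∫⁻ u, F (u + w) (u - w) := by
    intro w
    rw [← lintegral_add_right_eq_self (fun x => F x (x - (2:ℝ) • w)) w]
    refine lintegral_congr fun u => ?_
    congr 1
    rw [two_smul]; abel
  simp_rw [e3]
  have mG : Measurable (Function.uncurry fun w u : ι → ℝ => F (u + w) (u - w)) := by
    refine (mA.comp ?_).mul (mB.comp ?_)
    · fun_prop
    · fun_prop
  rw [lintegral_lintegral_swap mG.aemeasurable]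
  refine lintegral_congr fun u => ?_
  rw [← lintegral_indicator (h.sec u).meas]
  refine lintegral_congr fun w => ?_
  by_cases hw : w ∈ PL.sec V u
  · rw [indicator_of_mem hw, hF]
    simp only
    rw [indicator_of_mem hw.1, indicator_of_mem hw.2, ← ENNReal.ofReal_mul (Real.exp_pos _).le,
      ← Real.exp_add]
    congr 2
    rw [Finset.sum_add_distrib]
    simp only [Pi.add_apply, Pi.sub_apply]
    ring
  · rw [indicator_of_notMem hw, hF]
    simp only
    by_cases h7 : u + w ∈ V
    · have h8 : u - w ∉ V := fun h8 => hw ⟨h7, h8⟩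
      rw [indicator_of_notMem h8, mul_zero]
    · rw [indicator_of_notMem h7, zero_mul]

/-- exchange of the two halves -/
theorem hv_dbl_swap (h : SC V) (b c : ι → ℝ) :
    hv (dbl V) (Sum.elim b c) = hv (dbl V) (Sum.elim c b) := by
  rw [hv_dbl h, hv_dbl h]
  have e : ∀ b c : ι → ℝ, (∫⁻ u : ι → ℝ, ∫⁻ w in PL.sec V u,
      ENNReal.ofReal (Real.exp (-∑ i, (b i * u i ^ 2 + c i * w i ^ 2)))) =
      ∫⁻ u : ι → ℝ, ∫⁻ w : ι → ℝ, (PL.sec V u).indicator (fun w =>
        ENNReal.ofReal (Real.exp (-∑ i, (b i * u i ^ 2 + c i * w i ^ 2)))) w := by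
    intro b c
    refine lintegral_congr fun u => ?_
    rw [← lintegral_indicator (h.sec u).meas]
  rw [e, e]
  have mG : Measurable (Function.uncurry fun u w : ι → ℝ => (PL.sec V u).indicator (fun w =>
        ENNReal.ofReal (Real.exp (-∑ i, (b i * u i ^ 2 + c i * w i ^ 2)))) w) := by
    have hm : MeasurableSet {p : (ι → ℝ) × (ι → ℝ) | p.1 + p.2 ∈ V ∧ p.1 - p.2 ∈ V} :=
      (h.meas.preimage (by fun_prop : Measurable fun p : (ι → ℝ) × (ι → ℝ) => p.1 + p.2)).inter
        (h.meas.preimage (by fun_prop : Measurable fun p : (ι → ℝ) × (ι → ℝ) => p.1 - p.2))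
    have h5 : Measurable ({p : (ι → ℝ) × (ι → ℝ) | p.1 + p.2 ∈ V ∧ p.1 - p.2 ∈ V}.indicator
        fun p => ENNReal.ofReal (Real.exp (-∑ i, (b i * p.1 i ^ 2 + c i * p.2 i ^ 2)))) :=
      Measurable.indicator (by fun_prop) hm
    exact h5
  rw [lintegral_lintegral_swap mG.aemeasurable]
  refine lintegral_congr fun w => lintegral_congr fun u => ?_
  have h6 : w ∈ PL.sec V u ↔ u ∈ PL.sec V w := by
    constructor
    · rintro ⟨h7, h8⟩
      refine ⟨by rwa [add_comm], ?_⟩
      have := h.symm _ h8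
      rwa [neg_sub] at this
    · rintro ⟨h7, h8⟩
      refine ⟨by rwa [add_comm], ?_⟩
      have := h.symm _ h8
      rwa [neg_sub] at this
  by_cases hw : w ∈ PL.sec V u
  · rw [indicator_of_mem hw, indicator_of_mem (h6.1 hw)]
    congr 2
    simp_rw [add_comm]
  · rw [indicator_of_notMem hw, indicator_of_notMem (fun h7 => hw (h6.2 h7))]

/-- the doubling step: Anderson -/
theorem hv_step (h : SC V) (α β : ι → ℝ) (hα : ∀ i, 0 < α i) (hβ : ∀ i, 0 < β i) :
    hv V α * hv V β ≤ 2 ^ Fintype.card ι * hv (dbl V)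
      (Sum.elim (fun i => 4 * α i * β i / (α i + β i)) (fun i => α i + β i)) := by
  rw [hv_mul h, hv_dbl h]
  refine mul_le_mul' le_rfl (lintegral_mono fun u => ?_)
  have hγ : ∀ i, 0 < α i + β i := fun i => add_pos (hα i) (hβ i)
  have key := anderson_gauss (h.sec u).conv (h.sec u).symm (h.sec u).meas (fun i => α i + β i)
    (fun i => (α i - β i) / (α i + β i) * u i) (fun i => (hγ i).le)
  have e1 : ∀ w : ι → ℝ, ENNReal.ofReal (Real.exp (-∑ i, (α i * (u i + w i) ^ 2 +
      β i * (u i - w i) ^ 2))) =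
      ENNReal.ofReal (Real.exp (-∑ i, 4 * α i * β i / (α i + β i) * u i ^ 2)) *
      ENNReal.ofReal (Real.exp (-∑ i, (α i + β i) * (w i + (α i - β i) / (α i + β i) * u i) ^ 2)) := by
    intro w
    rw [← ENNReal.ofReal_mul (Real.exp_pos _).le, ← Real.exp_add]
    congr 2
    rw [← neg_add, ← Finset.sum_add_distrib]
    congr 1
    refine Finset.sum_congr rfl fun i _ => ?_
    have := (hγ i).ne'
    field_simp
    ring
  have e2 : ∀ w : ι → ℝ, ENNReal.ofReal (Real.exp (-∑ i, (4 * α i * β i / (α i + β i) * u i ^ 2 +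
      (α i + β i) * w i ^ 2))) =
      ENNReal.ofReal (Real.exp (-∑ i, 4 * α i * β i / (α i + β i) * u i ^ 2)) *
      ENNReal.ofReal (Real.exp (-∑ i, (α i + β i) * w i ^ 2)) := by
    intro w
    rw [← ENNReal.ofReal_mul (Real.exp_pos _).le, ← Real.exp_add]
    congr 2
    rw [← neg_add, ← Finset.sum_add_distrib]
  rw [lintegral_congr e1, lintegral_congr e2]
  rw [lintegral_const_mul _ (by fun_prop), lintegral_const_mul _ (by fun_prop)]
  exact mul_le_mul' le_rfl key

theorem hv_sq (h : SC V) (c : ι → ℝ) :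
    hv V c * hv V c = 2 ^ Fintype.card ι * hv (dbl V) (Sum.elim (fun i => 2 * c i) (fun i => 2 * c i)) := by
  rw [hv_mul h, hv_dbl h]
  congr 1
  refine lintegral_congr fun u => lintegral_congr fun w => ?_
  congr 3
  refine Finset.sum_congr rfl fun i _ => ?_
  ring

theorem hv_anti (V : Set (ι → ℝ)) {a b : ι → ℝ} (hab : ∀ i, a i ≤ b i) : hv V b ≤ hv V a := by
  unfold hv
  refine lintegral_mono fun x => ENNReal.ofReal_le_ofReal (Real.exp_le_exp.2 (neg_le_neg ?_))
  exact Finset.sum_le_sum fun i _ => mul_le_mul_of_nonneg_right (hab i) (sq_nonneg _)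

/-- crude bound for the dilation -/
theorem hv_dil (h : SC V) (c : ι → ℝ) (m : ℝ) (hm : 1 ≤ m) :
    hv V (fun i => c i / m ^ 2) ≤ ENNReal.ofReal (m ^ Fintype.card ι) * hv V c := by
  have m0 : 0 < m := lt_of_lt_of_le one_pos hm
  unfold hv
  rw [← lintegral_indicator h.meas, ← lintegral_indicator h.meas]
  set F : (ι → ℝ) → ℝ≥0∞ := V.indicator fun x => ENNReal.ofReal (Real.exp (-∑ i, c i / m ^ 2 * x i ^ 2))
    with hF
  have mF : Measurable F := Measurable.indicator (by fun_prop) h.meas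
  have h4 : Measure.map (fun w : ι → ℝ => m • w) volume =
        ENNReal.ofReal |(m ^ Module.finrank ℝ (ι → ℝ))⁻¹| • (volume : Measure (ι → ℝ)) :=
      Measure.map_addHaar_smul volume m0.ne'
  have h5 : ∫⁻ w, F (m • w) = ENNReal.ofReal |(m ^ Module.finrank ℝ (ι → ℝ))⁻¹| * ∫⁻ x, F x := by
    rw [← smul_eq_mul, ← lintegral_smul_measure, ← h4, lintegral_map mF (by fun_prop)]
  have h6 : ENNReal.ofReal (m ^ Fintype.card ι) *
      ENNReal.ofReal |(m ^ Module.finrank ℝ (ι → ℝ))⁻¹| = 1 := by
    rw [Module.finrank_fintype_fun_eq_card, abs_of_pos (by positivity),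
      ENNReal.ofReal_inv_of_pos (by positivity)]
    exact ENNReal.mul_inv_cancel (by positivity) ENNReal.ofReal_ne_top
  calc ∫⁻ x, F x = ENNReal.ofReal (m ^ Fintype.card ι) * ∫⁻ w, F (m • w) := by
        rw [h5, ← mul_assoc, h6, one_mul]
    _ ≤ _ := by
        gcongr with w
        by_cases hw : m • w ∈ V
        · have hw' : w ∈ V := by
            have h0 : (0 : ι → ℝ) ∈ V := by
              have := h.conv hw (h.symm _ hw) (by norm_num : (0:ℝ) ≤ 1 / 2)
                (by norm_num : (0:ℝ) ≤ 1 / 2) (by norm_num)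
              simpa using this
            have := h.conv hw h0 (a := 1 / m) (b := 1 - 1 / m) (by positivity)
              (by rw [sub_nonneg, div_le_one m0]; exact hm) (by ring)
            simpa [smul_smul, m0.ne'] using this
          rw [hF, indicator_of_mem hw, indicator_of_mem hw']
          apply ENNReal.ofReal_le_ofReal
          apply Real.exp_le_exp.2
          apply le_of_eq
          congr 1
          refine Finset.sum_congr rfl fun i _ => ?_
          simp only [Pi.smul_apply, smul_eq_mul]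
          field_simp
        · rw [hF, indicator_of_notMem hw]
          exact bot_le

end

/-- the induction statement -/
def BS (m M : ℝ) : Prop :=
  ∀ (ι : Type) [Fintype ι] (V : Set (ι → ℝ)), SC V → ∀ c a : ι → ℝ, (∀ i, 0 < c i) →
    (∀ i, 1 / m ≤ a i ∧ a i ≤ m) →
    hv V (fun i => c i * a i) * hv V (fun i => c i / a i) ≤
      ENNReal.ofReal (M ^ Fintype.card ι) * hv V c ^ 2

theorem bs_start (m : ℝ) (hm : 1 ≤ m) : BS m m := by
  intro ι _ V h c a hc ha
  have m0 : 0 < m := lt_of_lt_of_le one_pos hm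
  have hs : 1 ≤ Real.sqrt m := Real.one_le_sqrt.2 hm
  have hss : Real.sqrt m ^ 2 = m := Real.sq_sqrt m0.le
  have h1 := hv_dil h c (Real.sqrt m) hs
  rw [hss] at h1
  have h2 : hv V (fun i => c i * a i) ≤ hv V (fun i => c i / m) := by
    apply hv_anti
    intro i
    have := (ha i).1
    calc c i / m = c i * (1 / m) := by ring
      _ ≤ c i * a i := mul_le_mul_of_nonneg_left this (hc i).le
  have h3 : hv V (fun i => c i / a i) ≤ hv V (fun i => c i / m) := by
    apply hv_anti
    intro i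
    have ha0 : 0 < a i := lt_of_lt_of_le (by positivity) (ha i).1
    exact div_le_div_of_nonneg_left (hc i).le ha0 (ha i).2
  calc _ ≤ (ENNReal.ofReal (Real.sqrt m ^ Fintype.card ι) * hv V c) *
        (ENNReal.ofReal (Real.sqrt m ^ Fintype.card ι) * hv V c) :=
        mul_le_mul' (h2.trans h1) (h3.trans h1)
    _ = ENNReal.ofReal (m ^ Fintype.card ι) * hv V c ^ 2 := by
        have : ENNReal.ofReal (m ^ Fintype.card ι) =
            ENNReal.ofReal (Real.sqrt m ^ Fintype.card ι) ^ 2 := by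
          rw [← ENNReal.ofReal_pow (by positivity), ← pow_mul, mul_comm _ 2, pow_mul, hss]
        rw [this]
        ring

theorem bs_step (m M : ℝ) (hm : 1 ≤ m) (hM : 0 ≤ M) (hb : BS ((m + 1 / m) / 2) M) : BS m M := by
  intro ι _ V h c a hc ha
  have m0 : 0 < m := lt_of_lt_of_le one_pos hm
  have ha0 : ∀ i, 0 < a i := fun i => lt_of_lt_of_le (by positivity) (ha i).1
  set C : ι → ℝ := fun i => (a i + 1 / a i) / 2 with hC
  have hC1 : ∀ i, 1 ≤ C i := by
    intro i
    have h1 := ha0 i
    rw [hC]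
    simp only
    rw [le_div_iff₀ (by norm_num)]
    have : a i + 1 / a i = (a i ^ 2 + 1) / a i := by field_simp
    rw [this, le_div_iff₀ h1]
    nlinarith [sq_nonneg (a i - 1)]
  have hCm : ∀ i, C i ≤ (m + 1 / m) / 2 := by
    intro i
    have h1 := ha0 i
    rw [hC]
    simp only
    apply div_le_div_of_nonneg_right _ (by norm_num : (0:ℝ) ≤ 2)
    have e1 : a i + 1 / a i = (a i ^ 2 + 1) / a i := by field_simp
    have e2 : m + 1 / m = (m ^ 2 + 1) / m := by field_simp
    rw [e1, e2, div_le_div_iff₀ h1 m0]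
    have h2 : 1 ≤ a i * m := by
      have := (ha i).1
      rw [div_le_iff₀ m0] at this
      exact this
    nlinarith [mul_nonneg (sub_nonneg.2 (ha i).2) (sub_nonneg.2 h2)]
  have step := hv_step h (fun i => c i * a i) (fun i => c i / a i)
    (fun i => mul_pos (hc i) (ha0 i)) (fun i => div_pos (hc i) (ha0 i))
  have s1 : (fun i => c i * a i + c i / a i) = fun i => 2 * c i * C i := by
    ext i
    have := (ha0 i).ne'
    rw [hC]
    field_simp
  have s2 : (fun i => 4 * (c i * a i) * (c i / a i) / (c i * a i + c i / a i)) =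
      fun i => 2 * c i / C i := by
    ext i
    have h1 := (ha0 i).ne'
    have h2 := (hc i).ne'
    have h3 : c i * a i + c i / a i = 2 * c i * C i := congrFun s1 i
    have h4 : C i ≠ 0 := by linarith [hC1 i]
    rw [h3]
    field_simp
    ring
  rw [s1, s2] at step
  have hb' := hb (ι ⊕ ι) (dbl V) h.dbl (Sum.elim (fun i => 2 * c i) (fun i => 2 * c i))
    (Sum.elim (fun i => 1 / C i) C) (by
      rintro (i | i)
      · simpa using hc i
      · simpa using hc i) (by
      have hmm : 0 < (m + 1 / m) / 2 := by positivity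
      rintro (i | i)
      · simp only [Sum.elim_inl]
        constructor
        · exact one_div_le_one_div_of_le (by linarith [hC1 i]) (hCm i)
        · have h5 : 1 / C i ≤ 1 := by
            rw [div_le_one (by linarith [hC1 i])]
            exact hC1 i
          linarith [hC1 i, hCm i]
      · simp only [Sum.elim_inr]
        constructor
        · have h5 : 1 / ((m + 1 / m) / 2) ≤ 1 := by
            rw [div_le_one hmm]
            linarith [hC1 i, hCm i]
          linarith [hC1 i]
        · exact hCm i)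
  have t1 : (fun i => Sum.elim (fun i => 2 * c i) (fun i => 2 * c i) i *
      Sum.elim (fun i => 1 / C i) C i) =
      Sum.elim (fun i => 2 * c i / C i) (fun i => 2 * c i * C i) := by
    ext i
    rcases i with i | i
    · simp only [Sum.elim_inl]; ring
    · simp only [Sum.elim_inr]
  have t2 : (fun i => Sum.elim (fun i => 2 * c i) (fun i => 2 * c i) i /
      Sum.elim (fun i => 1 / C i) C i) =
      Sum.elim (fun i => 2 * c i * C i) (fun i => 2 * c i / C i) := by
    ext i
    rcases i with i | i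
    · simp only [Sum.elim_inl]
      have h4 : C i ≠ 0 := by linarith [hC1 i]
      field_simp
    · simp only [Sum.elim_inr]
  rw [t1, t2, hv_dbl_swap h (fun i => 2 * c i * C i) (fun i => 2 * c i / C i), ← sq,
    Fintype.card_sum, ← two_mul, mul_comm 2, pow_mul, ENNReal.ofReal_pow (by positivity),
    ← mul_pow] at hb'
  have hb2 := (ENNReal.pow_le_pow_left_iff two_ne_zero).1 hb'
  calc _ ≤ _ := step
    _ ≤ 2 ^ Fintype.card ι * (ENNReal.ofReal (M ^ Fintype.card ι) *
        hv (dbl V) (Sum.elim (fun i => 2 * c i) fun i => 2 * c i)) := by gcongr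
    _ = _ := by
        rw [sq, hv_sq h]
        ring

theorem bs_iter (M : ℝ) (hM : 1 < M) (k : ℕ) : ∀ m : ℝ, 1 ≤ m → m - 1 ≤ 2 ^ k * (M - 1) →
    BS m M := by
  induction k with
  | zero =>
    intro m hm hk
    simp only [pow_zero, one_mul] at hk
    have : BS M M := bs_start M hM.le
    intro ι _ V h c a hc ha
    refine this ι V h c a hc fun i => ⟨le_trans ?_ (ha i).1, (ha i).2.trans (by linarith)⟩
    exact one_div_le_one_div_of_le (by linarith) (by linarith)
  | succ k ih =>
    intro m hm hk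
    have m0 : 0 < m := lt_of_lt_of_le one_pos hm
    refine bs_step m M hm (by linarith) (ih _ ?_ ?_)
    · have : m + 1 / m = (m ^ 2 + 1) / m := by field_simp
      rw [this, div_div, le_div_iff₀ (by positivity)]
      nlinarith [sq_nonneg (m - 1)]
    · have h1 : (m + 1 / m) / 2 - 1 ≤ (m - 1) / 2 := by
        have : 1 / m ≤ 1 := by rw [div_le_one m0]; exact hm
        linarith
      rw [pow_succ] at hk
      linarith

/-- The B-theorem (diagonal form), center `c`. -/
theorem bthm_center {ι : Type} [Fintype ι] {V : Set (ι → ℝ)} (h : SC V) (c a : ι → ℝ)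
    (hc : ∀ i, 0 < c i) (ha : ∀ i, 0 < a i) :
    hv V (fun i => c i * a i) * hv V (fun i => c i / a i) ≤ hv V c ^ 2 := by
  -- a bound for a and its inverse
  obtain ⟨m, hm, hma⟩ : ∃ m : ℝ, 1 ≤ m ∧ ∀ i, 1 / m ≤ a i ∧ a i ≤ m := by
    refine ⟨1 + ∑ i, (a i + 1 / a i), ?_, fun i => ?_⟩
    · have : 0 ≤ ∑ i, (a i + 1 / a i) := Finset.sum_nonneg fun i _ => by
        have := ha i; positivity
      linarith
    · have h1 : a i + 1 / a i ≤ ∑ i, (a i + 1 / a i) :=
        Finset.single_le_sum (f := fun i => a i + 1 / a i) (fun i _ => by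
          have := ha i; positivity) (Finset.mem_univ i)
      have h2 := ha i
      have h3 : 0 < 1 / a i := by positivity
      constructor
      · rw [one_div_le (by linarith) h2]
        linarith
      · linarith
  have key : ∀ M : ℝ, 1 < M → hv V (fun i => c i * a i) * hv V (fun i => c i / a i) ≤
      ENNReal.ofReal (M ^ Fintype.card ι) * hv V c ^ 2 := by
    intro M hM
    obtain ⟨k, hk⟩ := pow_unbounded_of_one_lt ((m - 1) / (M - 1)) (by norm_num : (1:ℝ) < 2)
    refine bs_iter M hM k m hm ?_ ι V h c a hc hma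
    rw [div_lt_iff₀ (by linarith)] at hk
    exact hk.le
  have lim : Tendsto (fun n : ℕ => ENNReal.ofReal ((1 + 1 / ((n:ℝ) + 1)) ^ Fintype.card ι) *
      hv V c ^ 2) atTop (𝓝 (ENNReal.ofReal ((1 + 0) ^ Fintype.card ι) * hv V c ^ 2)) := by
    refine ENNReal.Tendsto.mul_const ?_ (Or.inl (by simp))
    refine ENNReal.tendsto_ofReal ?_
    exact (tendsto_const_nhds.add tendsto_one_div_add_atTop_nhds_zero_nat).pow _
  have := ge_of_tendsto' lim fun n => key (1 + 1 / ((n:ℝ) + 1)) (by
    have : (0:ℝ) < 1 / ((n:ℝ) + 1) := by positivity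
    linarith)
  simpa using this

end Pool.Agent.Lib.MP_cb8a44_nt.PL
end

section
/-! Statements for block (A) of MP_cb8a44_nt: Prekopa-Leindler `pl_pi`, Anderson `and_pi`,
B-theorem `bth`, criterion `crt`. -/
namespace Pool.Agent.Lib.MP_cb8a44_nt.PL

open MeasureTheory Set Filter Topology
open scoped ENNReal Pointwise

/-- (PL) Prekopa-Leindler, midpoint form. -/
theorem pl_pi {ι : Type} [Fintype ι] (f g h : (ι → ℝ) → ℝ≥0∞) (hf : Measurable f)
    (hg : Measurable g) (hh : Measurable h)
    (H : ∀ x y, f x * g y ≤ h ((1 / 2 : ℝ) • (x + y)) ^ 2) :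
    (∫⁻ x, f x) * (∫⁻ x, g x) ≤ (∫⁻ x, h x) ^ 2 :=
  plProp_pi ι f g h hf hg hh H

/-- (AND) Anderson's inequality. -/
theorem and_pi {ι : Type} [Fintype ι] {V : Set (ι → ℝ)} (hV : SC V) (φ : (ι → ℝ) → ℝ≥0∞)
    (hm : Measurable φ) (hs : ∀ x, φ (-x) = φ x)
    (hc : ∀ x y, φ x * φ y ≤ φ ((1 / 2 : ℝ) • (x + y)) ^ 2) (a : ι → ℝ) :
    ∫⁻ x in V, φ (x + a) ≤ ∫⁻ x in V, φ x := by
  have h := anderson (E := ι → ℝ) (μ := volume) (plProp_pi ι) (K := φ) (g := V.indicator 1) hm
    (measurable_one.indicator hV.meas) hc (mlc_indicator hV.conv) hs (by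
      intro x
      by_cases hx : x ∈ V
      · rw [indicator_of_mem hx, indicator_of_mem (hV.symm x hx)]; rfl
      · have : -x ∉ V := fun h => hx (by simpa using hV.symm _ h)
        rw [indicator_of_notMem hx, indicator_of_notMem this]) a
  rw [← lintegral_indicator hV.meas, ← lintegral_indicator hV.meas]
  refine le_of_eq_of_le (lintegral_congr fun w => ?_)
    (h.trans (le_of_eq (lintegral_congr fun w => ?_)))
  · by_cases hw : w ∈ V
    · simp [hw]
    · simp [hw]
  · by_cases hw : w ∈ V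
    · simp [hw]
    · simp [hw]

/-- Anderson's inequality for the volume of intersections. -/
theorem and_vol {ι : Type} [Fintype ι] {V K : Set (ι → ℝ)} (hV : SC V) (hK : SC K) (a : ι → ℝ) :
    volume (V ∩ {x | x + a ∈ K}) ≤ volume (V ∩ K) := by
  have h := and_pi hV (K.indicator 1) (measurable_one.indicator hK.meas) (by
      intro x
      by_cases hx : x ∈ K
      · rw [indicator_of_mem hx, indicator_of_mem (hK.symm x hx)]; rfl
      · have : -x ∉ K := fun h => hx (by simpa using hK.symm _ h)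
        rw [indicator_of_notMem hx, indicator_of_notMem this]) (mlc_indicator hK.conv) a
  have e1 : ∫⁻ x in V, (K.indicator 1 (x + a) : ℝ≥0∞) = volume (V ∩ {x | x + a ∈ K}) := by
    have hm : MeasurableSet {x | x + a ∈ K} := hK.meas.preimage (measurable_add_const a)
    have h2 := lintegral_indicator_one (μ := volume.restrict V) hm
    rw [Measure.restrict_apply hm, inter_comm] at h2
    exact h2
  have e2 : ∫⁻ x in V, (K.indicator 1 x : ℝ≥0∞) = volume (V ∩ K) := by
    have h2 := lintegral_indicator_one (μ := volume.restrict V) hK.meas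
    rw [Measure.restrict_apply hK.meas, inter_comm] at h2
    exact h2
  rwa [e1, e2] at h

/-- Gaussian mass of `V` with quadratic weights `a` (Bochner integral). -/
noncomputable def HD {ι : Type} [Fintype ι] (V : Set (ι → ℝ)) (a : ι → ℝ) : ℝ :=
  ∫ x in V, Real.exp (-Real.pi * ∑ i, a i * x i ^ 2)

section

variable {ι : Type} [Fintype ι] {V : Set (ι → ℝ)}

theorem gauss_integrable (a : ι → ℝ) (ha : ∀ i, 0 < a i) :
    Integrable fun x : ι → ℝ => Real.exp (-Real.pi * ∑ i, a i * x i ^ 2) := by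
  have h1 : Integrable fun x : ι → ℝ => ∏ i, Real.exp (-(Real.pi * a i) * x i ^ 2) :=
    Integrable.fintype_prod (f := fun i (t : ℝ) => Real.exp (-(Real.pi * a i) * t ^ 2))
      fun i => integrable_exp_neg_mul_sq (mul_pos Real.pi_pos (ha i))
  refine h1.congr (Filter.Eventually.of_forall fun x => ?_)
  simp only
  rw [← Real.exp_sum, Finset.mul_sum]
  congr 1
  refine Finset.sum_congr rfl fun i _ => ?_
  ring

theorem HD_ofReal (V : Set (ι → ℝ)) (a : ι → ℝ) (ha : ∀ i, 0 < a i) :
    ENNReal.ofReal (HD V a) = hv V (fun i => Real.pi * a i) := by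
  unfold HD hv
  rw [ofReal_integral_eq_lintegral_ofReal (gauss_integrable a ha).integrableOn
    (Filter.Eventually.of_forall fun x => (Real.exp_pos _).le)]
  refine lintegral_congr fun x => ?_
  congr 2
  rw [neg_mul, Finset.mul_sum]
  congr 1
  refine Finset.sum_congr rfl fun i _ => ?_
  ring

theorem HD_nonneg (V : Set (ι → ℝ)) (a : ι → ℝ) : 0 ≤ HD V a :=
  integral_nonneg fun _ => (Real.exp_pos _).le

theorem HD_pos (h0 : 0 < volume V) (a : ι → ℝ) (ha : ∀ i, 0 < a i) : 0 < HD V a := by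
  unfold HD
  rw [setIntegral_pos_iff_support_of_nonneg_ae
    (Filter.Eventually.of_forall fun x => (Real.exp_pos _).le) (gauss_integrable a ha).integrableOn]
  have : Function.support (fun x : ι → ℝ => Real.exp (-Real.pi * ∑ i, a i * x i ^ 2)) = univ := by
    ext x
    simp [(Real.exp_pos _).ne']
  rw [this, univ_inter]
  exact h0

/-- (BTH) with an arbitrary center. -/
theorem bth_center (hV : SC V) (c a : ι → ℝ) (hc : ∀ i, 0 < c i) (ha : ∀ i, 0 < a i) :
    HD V (fun i => c i * a i) * HD V (fun i => c i / a i) ≤ HD V c ^ 2 := by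
  have h1 := bthm_center hV (fun i => Real.pi * c i) a (fun i => mul_pos Real.pi_pos (hc i)) ha
  have e1 : (fun i => Real.pi * c i * a i) = fun i => Real.pi * (c i * a i) := by
    ext i; ring
  have e2 : (fun i => Real.pi * c i / a i) = fun i => Real.pi * (c i / a i) := by
    ext i; ring
  rw [e1, e2, ← HD_ofReal V _ (fun i => mul_pos (hc i) (ha i)),
    ← HD_ofReal V _ (fun i => div_pos (hc i) (ha i)), ← HD_ofReal V _ hc,
    ← ENNReal.ofReal_mul (HD_nonneg _ _), ← ENNReal.ofReal_pow (HD_nonneg _ _)] at h1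
  exact (ENNReal.ofReal_le_ofReal_iff (by have := HD_nonneg V c; positivity)).1 h1

/-- (BTH) -/
theorem bth (hV : SC V) (s : ι → ℝ) :
    HD V (fun i => Real.exp (2 * s i)) * HD V (fun i => Real.exp (-(2 * s i))) ≤
      HD V (fun _ => 1) ^ 2 := by
  have h := bth_center hV (fun _ => 1) (fun i => Real.exp (2 * s i)) (fun _ => one_pos)
    (fun i => Real.exp_pos _)
  simpa [Real.exp_neg] using h

/-- midpoint log-concavity along a one parameter group -/
theorem bth_line (hV : SC V) (s : ι → ℝ) (t t' : ℝ) :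
    HD V (fun i => Real.exp (2 * (t + t') * s i)) * HD V (fun i => Real.exp (2 * (t - t') * s i)) ≤
      HD V (fun i => Real.exp (2 * t * s i)) ^ 2 := by
  have h := bth_center hV (fun i => Real.exp (2 * t * s i)) (fun i => Real.exp (2 * t' * s i))
    (fun i => Real.exp_pos _) (fun i => Real.exp_pos _)
  have e1 : (fun i => Real.exp (2 * t * s i) * Real.exp (2 * t' * s i)) =
      fun i => Real.exp (2 * (t + t') * s i) := by
    ext i
    rw [← Real.exp_add]
    congr 1
    ring
  have e2 : (fun i => Real.exp (2 * t * s i) / Real.exp (2 * t' * s i)) =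
      fun i => Real.exp (2 * (t - t') * s i) := by
    ext i
    rw [← Real.exp_sub]
    congr 1
    ring
  rwa [e1, e2] at h

/-- (CRT) A critical point is a maximum. -/
theorem crt (hV : SC V) (h0 : 0 < volume V) (s : ι → ℝ)
    (H : ∀ ε > 0, ∃ δ > 0, ∀ t : ℝ, |t| < δ →
      HD V (fun _ => 1) - ε * |t| ≤ HD V (fun i => Real.exp (2 * t * s i))) :
    HD V (fun i => Real.exp (2 * s i)) ≤ HD V (fun _ => 1) := by
  set h : ℝ → ℝ := fun t => HD V (fun i => Real.exp (2 * t * s i)) with hh
  have hpos : ∀ t, 0 < h t := fun t => HD_pos h0 _ fun i => Real.exp_pos _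
  have hz : h 0 = HD V (fun _ => 1) := by
    simp [hh]
  have h1 : h 1 = HD V (fun i => Real.exp (2 * s i)) := by
    simp [hh]
  rw [← h1, ← hz]
  rw [← hz] at H
  by_contra hcon
  push Not at hcon
  set φ : ℝ → ℝ := fun t => Real.log (h t) with hφ
  have mid : ∀ t t', φ (t + t') + φ (t - t') ≤ 2 * φ t := by
    intro t t'
    have h2 := bth_line hV s t t'
    have h3 := Real.log_le_log (mul_pos (hpos (t + t')) (hpos (t - t'))) h2
    rw [Real.log_mul (hpos _).ne' (hpos _).ne', Real.log_pow] at h3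
    push_cast at h3
    exact h3
  set d := φ 1 - φ 0 with hd
  have dpos : 0 < d := by
    have := Real.log_lt_log (hpos 0) hcon
    simp only [hd, hφ]
    linarith
  have up : ∀ n : ℕ, φ 0 + d / 2 ^ n ≤ φ (1 / 2 ^ n) := by
    intro n
    induction n with
    | zero => simp [hd]
    | succ n ih =>
      have h2 := mid (1 / 2 ^ (n + 1)) (1 / 2 ^ (n + 1))
      have e1 : (1:ℝ) / 2 ^ (n + 1) + 1 / 2 ^ (n + 1) = 1 / 2 ^ n := by
        rw [pow_succ]; field_simp; norm_num
      rw [e1, sub_self] at h2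
      have e2 : d / 2 ^ (n + 1) = d / 2 ^ n / 2 := by
        rw [pow_succ]; field_simp
      rw [e2]
      linarith
  have down : ∀ n : ℕ, φ (-(1 / 2 ^ n)) ≤ φ 0 - d / 2 ^ n := by
    intro n
    have h2 := mid 0 (1 / 2 ^ n)
    rw [zero_add, zero_sub] at h2
    have h3 := up n
    linarith
  obtain ⟨δ, hδ, hδ'⟩ := H (h 0 * d / 4) (by have := hpos 0; positivity)
  obtain ⟨n, hn⟩ := pow_unbounded_of_one_lt (max (1 / δ) d) (by norm_num : (1:ℝ) < 2)
  have p0 : (0:ℝ) < 2 ^ n := by positivity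
  have hn1 : 1 / (2:ℝ) ^ n < δ := by
    rw [one_div_lt p0 hδ]
    exact lt_of_le_of_lt (le_max_left _ _) hn
  have hn2 : d / 2 ^ n ≤ 1 := by
    rw [div_le_one p0]
    exact (lt_of_le_of_lt (le_max_right _ _) hn).le
  have h4 := hδ' (-(1 / 2 ^ n)) (by rw [abs_neg, abs_of_pos (by positivity)]; exact hn1)
  rw [abs_neg, abs_of_pos (by positivity : (0:ℝ) < 1 / 2 ^ n)] at h4
  have h5 : h (-(1 / 2 ^ n)) ≤ h 0 * Real.exp (-(d / 2 ^ n)) := by
    have h6 := down n
    have h7 : Real.log (h (-(1 / 2 ^ n))) ≤ Real.log (h 0 * Real.exp (-(d / 2 ^ n))) := by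
      rw [Real.log_mul (hpos 0).ne' (Real.exp_pos _).ne', Real.log_exp]
      simp only [hφ] at h6
      linarith
    exact (Real.log_le_log_iff (hpos _) (mul_pos (hpos 0) (Real.exp_pos _))).1 h7
  -- exp (-x) ≤ 1 - x / 2 for x in [0,1]
  have h6 : Real.exp (-(d / 2 ^ n)) ≤ 1 - (d / 2 ^ n) / 2 := by
    set x := d / 2 ^ n with hx
    have x0 : 0 < x := by positivity
    have h8 : 1 + x ≤ Real.exp x := by linarith [Real.add_one_le_exp x]
    have h9 : Real.exp (-x) ≤ 1 / (1 + x) := by
      rw [Real.exp_neg, ← one_div]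
      exact one_div_le_one_div_of_le (by linarith) h8
    refine h9.trans ?_
    rw [div_le_iff₀ (by linarith)]
    nlinarith
  have h7 : h 0 * Real.exp (-(d / 2 ^ n)) ≤ h 0 * (1 - (d / 2 ^ n) / 2) :=
    mul_le_mul_of_nonneg_left h6 (hpos 0).le
  have h8 : 0 < h 0 * (d / 2 ^ n) := mul_pos (hpos 0) (by positivity)
  have h9 : h 0 * d / 4 * (1 / 2 ^ n) = h 0 * (d / 2 ^ n) / 4 := by ring
  rw [h9] at h4
  nlinarith

end

end Pool.Agent.Lib.MP_cb8a44_nt.PL
end

section
set_option autoImplicit false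

open MeasureTheory Set
open scoped ENNReal

namespace Pool.Agent.Lib.MP_cb8a44_nt.RM

theorem SC.toPL {ι : Type} [Fintype ι] {V : Set (ι → ℝ)} (h : SC V) : PL.SC V :=
  ⟨h.conv, h.symm, h.meas⟩

theorem HD_eq {ι : Type} [Fintype ι] (V : Set (ι → ℝ)) (a : ι → ℝ) : HD V a = PL.HD V a := by
  unfold HD PL.HD
  simp only [neg_mul]

theorem specAND : SpecAND := by
  intro ι _ V φ hV hm hs hc a
  exact PL.and_pi hV.toPL φ hm hs hc a

theorem specCRT : SpecCRT := by
  intro ι _ V s hV h0 H
  simp only [HD_eq] at H ⊢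
  exact PL.crt hV.toPL h0 s H

/-- The B-theorem. -/
theorem bth {ι : Type} [Fintype ι] {V : Set (ι → ℝ)} (hV : SC V) (s : ι → ℝ) :
    HD V (fun i => Real.exp (2 * s i)) * HD V (fun i => Real.exp (-(2 * s i))) ≤
      HD V (fun _ => 1) ^ 2 := by
  simp only [HD_eq]
  exact PL.bth hV.toPL s

/-- Anderson's inequality for volumes. -/
theorem and_vol {ι : Type} [Fintype ι] {V K : Set (ι → ℝ)} (hV : SC V) (hK : SC K) (a : ι → ℝ) :
    volume (V ∩ {x | x + a ∈ K}) ≤ volume (V ∩ K) :=
  PL.and_vol hV.toPL hK.toPL a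

end Pool.Agent.Lib.MP_cb8a44_nt.RM
end
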